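import Mathlib
import Pool.Agent.Lib.MP_e40715_an.Defs
import Pool.Agent.Lib.MP_e40715_an.Proof

open MeasureTheory Set
open scoped ENNReal
open Pool.Agent.Lib.MP_e40715_an

namespace Pool.Agent.Results.MP_e40715_an.NeverHypercyclic

/-- **No weighted translation operator on `L^p([0,1])` is hypercyclic.** -/
theorem result (p : ℝ≥0∞) [Fact (1 ≤ p)] (φ : Lp ℂ ∞ leb01) (α : ℝ)
    (hα : α ∈ Icc (0 : ℝ) 1) : ¬ IsHypercyclic (weightedTranslation p φ α) :=
  never_hypercyclic p φ α hα

end Pool.Agent.Results.MP_e40715_an.NeverHypercyclic
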